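import Pool.Agent.L7h79.GR.Stm

/-!
# Typical numbers: the numbers `2 N - n` have few small divisors (Markov)
(for project GR of helper79)
-/

set_option autoImplicit false

namespace Pool.Agent.L7h60.GR

open Finset Pool.Agent.L7h79.GR

open Classical in
/-- the numbers `N ≤ X` with `E ∣ 2 N - n`, `n` odd -/
theorem card_cls (X E n : ℕ) (hE : 1 ≤ E) (hn : n % 2 = 1) :
    (((Icc 1 X).filter (fun N : ℕ => (E : ℤ) ∣ 2 * (N : ℤ) - n)).card : ℝ) ≤ (X : ℝ) / E + 1 := by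
  have hE0 : (0 : ℝ) < E := by exact_mod_cast hE
  have h1 : ((Icc 1 X).filter (fun N : ℕ => (E : ℤ) ∣ 2 * (N : ℤ) - n)).card ≤
      (range (X / E + 1)).card := by
    refine card_le_card_of_injOn (fun N => N / E) ?_ ?_
    · intro N hN
      simp only [coe_filter, mem_Icc, Set.mem_ofPred_eq] at hN
      simp only [coe_range, Set.mem_Iio]
      exact Nat.lt_succ_of_le (Nat.div_le_div_right hN.1.2)
    · intro N hN N' hN' h
      simp only [coe_filter, mem_Icc, Set.mem_ofPred_eq] at hN hN'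
      simp only at h
      have hodd : ¬ (2 : ℤ) ∣ (E : ℤ) := by
        intro h2
        have h3 := dvd_trans h2 hN.2
        omega
      have hcop : IsCoprime (E : ℤ) 2 := by
        rw [isCoprime_comm]
        exact (Int.prime_two.coprime_iff_not_dvd).2 hodd
      have h3 : (E : ℤ) ∣ 2 * ((N : ℤ) - N') := by
        have := dvd_sub hN.2 hN'.2
        have e : (2 * (N : ℤ) - n) - (2 * (N' : ℤ) - n) = 2 * ((N : ℤ) - N') := by ring
        rwa [e] at this
      have h4 : (E : ℤ) ∣ (N : ℤ) - N' := hcop.dvd_of_dvd_mul_left h3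
      have h5 : N ≡ N' [MOD E] :=
        ((Nat.modEq_iff_dvd).2 (by
          have := (dvd_neg (α := ℤ)).2 h4
          rwa [neg_sub] at this))
      have h6 : N % E = N' % E := h5
      rw [← Nat.div_add_mod N E, ← Nat.div_add_mod N' E, h, h6]
  rw [card_range] at h1
  have h2 : ((X / E : ℕ) : ℝ) ≤ (X : ℝ) / E := Nat.cast_div_le
  have h3 : (((Icc 1 X).filter (fun N : ℕ => (E : ℤ) ∣ 2 * (N : ℤ) - n)).card : ℝ) ≤
      ((X / E + 1 : ℕ) : ℝ) := by exact_mod_cast h1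
  push_cast at h3
  linarith

theorem harm (Z : ℕ) : ∑ E ∈ Icc 1 Z, (1 : ℝ) / E ≤ 1 + Real.log Z := by
  have h := harmonic_le_one_add_log Z
  rw [harmonic_eq_sum_Icc] at h
  push_cast at h
  simpa [one_div] using h

open Classical in
theorem typ : S_TYP := by
  intro G Z M X hG hZ hM
  have hM0 : (0 : ℝ) < M := by exact_mod_cast hM
  rw [le_div_iff₀ hM0]
  set O : Finset ℕ := (Icc 1 G).filter (fun n => n % 2 = 1) with hO
  set B : Finset ℕ := (Icc 1 X).filter (fun N : ℕ => ¬ Typ G Z M N) with hB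
  let d : ℕ → ℕ → ℝ := fun N n => (((Icc 1 Z).filter (fun E : ℕ => (E : ℤ) ∣ 2 * (N : ℤ) - n)).card : ℝ)
  have hd0 : ∀ N n, 0 ≤ d N n := fun N n => Nat.cast_nonneg _
  -- lower bound
  have h1 : ∀ N ∈ B, (M : ℝ) ≤ ∑ n ∈ O, d N n := by
    intro N hN
    rw [hB, mem_filter] at hN
    have h2 := hN.2
    unfold Typ at h2
    push Not at h2
    obtain ⟨n, hnG, hn, hc⟩ := h2
    have hnO : n ∈ O := by
      rw [hO, mem_filter, mem_Icc]
      exact ⟨⟨by omega, hnG⟩, hn⟩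
    refine le_trans ?_ (single_le_sum (f := fun n => d N n) (fun n _ => hd0 N n) hnO)
    exact Nat.cast_le.2 hc.le
  have h2 : (B.card : ℝ) * M ≤ ∑ N ∈ Icc 1 X, ∑ n ∈ O, d N n := by
    calc (B.card : ℝ) * M = ∑ N ∈ B, (M : ℝ) := by rw [sum_const, nsmul_eq_mul]
      _ ≤ ∑ N ∈ B, ∑ n ∈ O, d N n := sum_le_sum h1
      _ ≤ ∑ N ∈ Icc 1 X, ∑ n ∈ O, d N n := by
          refine sum_le_sum_of_subset_of_nonneg (filter_subset _ _) fun N _ _ => ?_
          exact sum_nonneg fun n _ => hd0 N n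
  refine h2.trans ?_
  rw [sum_comm]
  -- upper bound
  have h3 : ∀ n ∈ O, ∑ N ∈ Icc 1 X, d N n ≤ (X : ℝ) * (1 + Real.log Z) + Z := by
    intro n hn
    rw [hO, mem_filter] at hn
    have e1 : ∑ N ∈ Icc 1 X, d N n =
        ∑ E ∈ Icc 1 Z, (((Icc 1 X).filter (fun N : ℕ => (E : ℤ) ∣ 2 * (N : ℤ) - n)).card : ℝ) := by
      show ∑ N ∈ Icc 1 X, (((Icc 1 Z).filter (fun E : ℕ => (E : ℤ) ∣ 2 * (N : ℤ) - n)).card : ℝ) = _
      simp_rw [card_filter]
      push_cast
      rw [sum_comm]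
    rw [e1]
    calc ∑ E ∈ Icc 1 Z, (((Icc 1 X).filter (fun N : ℕ => (E : ℤ) ∣ 2 * (N : ℤ) - n)).card : ℝ) ≤
        ∑ E ∈ Icc 1 Z, ((X : ℝ) * (1 / E) + 1) := by
          refine sum_le_sum fun E hE => ?_
          rw [mem_Icc] at hE
          have := card_cls X E n hE.1 hn.2
          rwa [← mul_one_div] at this
      _ = (X : ℝ) * (∑ E ∈ Icc 1 Z, (1 : ℝ) / E) + Z := by
          rw [sum_add_distrib, ← mul_sum, sum_const, Nat.card_Icc]
          simp
      _ ≤ _ := by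
          have := mul_le_mul_of_nonneg_left (harm Z) (Nat.cast_nonneg (α := ℝ) X)
          linarith
  have hlog : 0 ≤ Real.log Z := Real.log_nonneg (by exact_mod_cast hZ)
  have hpos : 0 ≤ (X : ℝ) * (1 + Real.log Z) + Z := by positivity
  calc ∑ n ∈ O, ∑ N ∈ Icc 1 X, d N n ≤ ∑ n ∈ O, ((X : ℝ) * (1 + Real.log Z) + Z) := sum_le_sum h3
    _ = (O.card : ℝ) * ((X : ℝ) * (1 + Real.log Z) + Z) := by rw [sum_const, nsmul_eq_mul]
    _ ≤ (G : ℝ) * ((X : ℝ) * (1 + Real.log Z) + Z) := by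
        refine mul_le_mul_of_nonneg_right ?_ hpos
        have : O.card ≤ (Icc 1 G).card := card_le_card (filter_subset _ _)
        rw [Nat.card_Icc] at this
        exact_mod_cast (by omega : O.card ≤ G)

end Pool.Agent.L7h60.GR
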